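import Pool.Agent.helper10.FL.SpecV

/-! fl:TWX: the second selection, sequences. -/

set_option autoImplicit false

open Complex Metric Set Filter Topology MeasureTheory
open STA

noncomputable section

namespace FL

theorem TWX (hPVF : STA.PVF_stmt) (hSLX : SLX_stmt) : TWX_stmt := by
  classical
  intro Y₀ U y r e s a m ζ hok hth
  have hev : ∀ᶠ j in (U : Filter ℕ), ∃ kb : ℕ × ℕ, SLW (PVs (y j) (r j) Y₀) (a j) kb.1 kb.2 ∧ 4 ^ kb.1 * ‖T (PVs (y j) (r j) Y₀) kb.2 0‖ ≤ ‖T (PVs (y j) (r j) Y₀) (m j) 0‖ := by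
    filter_upwards [hth.s2.sq.np, hth.s2.jx] with j hn hj
    obtain ⟨k, b, h1, h2⟩ := hSLX _ _ _ _ _ _ _ ((hPVF Y₀ (y j) (r j) (hth.s2.sq.r0 j)).2.2.1 hok) hn hj
    exact ⟨(k, b), h1, h2⟩
  let kb : ℕ → ℕ × ℕ := fun j => if h : ∃ kb : ℕ × ℕ, SLW (PVs (y j) (r j) Y₀) (a j) kb.1 kb.2 ∧ 4 ^ kb.1 * ‖T (PVs (y j) (r j) Y₀) kb.2 0‖ ≤ ‖T (PVs (y j) (r j) Y₀) (m j) 0‖ then h.choose else (0, 0)
  have hkb : ∀ᶠ j in (U : Filter ℕ), SLW (PVs (y j) (r j) Y₀) (a j) (kb j).1 (kb j).2 ∧ 4 ^ (kb j).1 * ‖T (PVs (y j) (r j) Y₀) (kb j).2 0‖ ≤ ‖T (PVs (y j) (r j) Y₀) (m j) 0‖ := by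
    filter_upwards [hev] with j hj
    have h : kb j = hj.choose := dif_pos hj
    rw [h]
    exact hj.choose_spec
  refine ⟨fun j => (kb j).1, fun j => (kb j).2, hth, hkb.mono fun j hj => hj.1, ?_⟩
  rw [Metric.tendsto_nhds]
  intro ε hε
  filter_upwards [hkb, hth.s2.oi (ε / 2) (half_pos hε)] with j hj ho
  have h0 : 0 ≤ ‖T (PVs (y j) (r j) Y₀) (kb j).2 0‖ := norm_nonneg _
  have h1 : (2 : ℝ) ^ (kb j).1 ≤ 4 ^ (kb j).1 := pow_le_pow_left₀ (by norm_num) (by norm_num) _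
  have h2 : 0 ≤ (2 : ℝ) ^ (kb j).1 * ‖T (PVs (y j) (r j) Y₀) (kb j).2 0‖ := by positivity
  rw [Real.dist_eq, sub_zero, abs_of_nonneg h2]
  calc (2 : ℝ) ^ (kb j).1 * ‖T (PVs (y j) (r j) Y₀) (kb j).2 0‖ ≤ 4 ^ (kb j).1 * ‖T (PVs (y j) (r j) Y₀) (kb j).2 0‖ :=
        mul_le_mul_of_nonneg_right h1 h0
    _ ≤ ‖T (PVs (y j) (r j) Y₀) (m j) 0‖ := hj.2
    _ ≤ ε / 2 := ho.sm
    _ < ε := half_lt_self hε

end FL
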